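import Mathlib

set_option autoImplicit false

namespace Pool.Agent.H.MP_542d22_co

theorem cross {V E : Type} (tail head : E → V) (X : V → Prop) :
    ∀ (P : List E), P ≠ [] → (∀ e ∈ P.head?, X (tail e)) → (∀ e ∈ P.getLast?, ¬ X (head e)) →
      (∀ (k : ℕ) (a b : E), P[k]? = some a → P[k+1]? = some b → head a = tail b) →
      ∃ e ∈ P, X (tail e) ∧ ¬ X (head e)
  | [], h, _, _, _ => absurd rfl h
  | [a], _, h1, h2, _ => ⟨a, by simp, h1 a (by simp), h2 a (by simp)⟩
  | a :: b :: l, _, h1, h2, h3 => by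
    by_cases hx : X (head a)
    · have hab : head a = tail b := h3 0 a b (by simp) (by simp)
      obtain ⟨e, he, hh⟩ := cross tail head X (b :: l) (by simp)
        (by intro e he; simp at he; subst he; rw [← hab]; exact hx)
        (by intro e he; apply h2 e; simpa [List.getLast?_cons_cons] using he)
        (by intro k c d hc hd; exact h3 (k+1) c d (by simpa using hc) (by simpa using hd))
      exact ⟨e, List.mem_cons_of_mem _ he, hh⟩
    · exact ⟨a, by simp, h1 a (by simp), hx⟩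

def tl (e : Fin 24) : Fin 6 := ⟨e.val / 4, by omega⟩

def hd : Fin 24 → Fin 6 :=
  ![4,4,4,2, 3,3,3,5, 5,5,0,5, 1,5,1,5, 2,2,0,0, 2,2,1,2]

def cuts : List (Finset (Fin 6)) :=
  [{1,3},{0,4},{0,2,4},{2,5},{1,3,5},{1,2,3,5},{0,1,2,3,5},{0,2,4,5},{0,1,2,4,5},{0,2,3,4,5},{1,2,3,4,5}]

theorem noloop : ∀ e, tl e ≠ hd e := by decide +kernel

theorem deg : ∀ v : Fin 6, (Finset.univ.filter (fun e : Fin 24 => tl e = v)).card = 4 := by
  decide +kernel

theorem sep : ∀ x y : Fin 6, x ≠ y → ∃ X ∈ cuts, x ∈ X ∧ y ∉ X := by decide +kernel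

theorem small : ∀ X ∈ cuts,
    (Finset.univ.filter (fun e : Fin 24 => tl e ∈ X ∧ hd e ∉ X)).card ≤ 3 := by decide +kernel

end Pool.Agent.H.MP_542d22_co
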